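import Pool.Agent.H32.PtaB

set_option autoImplicit false

open Pool.Agent.H32.Pta in
theorem Pool.Agent.Results.MP_78a33a_lc.Separation.result :
    ∃ (S : Type) (_ : Finite S) (rk : S → ℕ) (L : Set (Tr rk)),
      (∃ A : PTAR rk, A.lang = L) ∧ ¬ ∃ A : PTAR rk, A.IsPTA ∧ A.lang = L :=
  ⟨Sy, inferInstance, rk, A0.lang, ⟨A0, rfl⟩, fun ⟨A, h1, h2⟩ => notPTA A h1 h2⟩
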